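import Pool.Agent.H670R2.Hard
import Pool.Agent.H670R2.OrthMem

/-!
# ORTH3 is complete for the existential theory of the reals

The decision problem ORTH3 (does a given finite simple graph have an orthogonal representation in
`ℝ³`, i.e. pairwise non-collinear nonzero vectors at the vertices, orthogonal along the edges) is
`∃ℝ`-complete under polynomial-time many-one reductions.

Sketch of the hardness proof.  Satisfiability over `ℝ` of systems of constraints `x = 1`,
`x + y = z`, `x * y = z` is `∃ℝ`-hard (`Pool.Agent.ER`).  Such a system is first masked: a real
number is represented as the sum of two real numbers of which one is free, and the equations are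
written as constraints `w l = w i * w j + w k` which, if solvable, are solvable in pairwise
distinct values (`Avoid`, `Separate`, `Mask`).  Such a constraint says that the point `(w i, w l)`
lies on the line `y = (w j) x + w k`.  The incidences between points and lines of the projective
plane are orthogonality relations in `ℝ³`; a graph containing a projective frame and vertices for
the points and lines used is realizable by pairwise non-collinear vectors iff the constraints are
solvable (`Plane`, `Sound`, `Graph`).  The map is computable in polynomial time (`PolyRed`,
`Hard`).
-/

namespace Pool.Agent.Results.MP_e14cd3_lc.OrthThreeComplete

open Pool.Agent.NPC Pool.Agent.NPC.ER Pool.Agent.H670R2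

/-- ORTH3 is `∃ℝ`-complete under polynomial-time many-one reductions. -/
theorem result : ERComplete ORTH3 :=
  ⟨Pool.Agent.NPC.H670R2.orth3_mem, Pool.Agent.NPC.H670R2.orth3_hard⟩

end Pool.Agent.Results.MP_e14cd3_lc.OrthThreeComplete
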